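import Mathlib

/-!
# Squad SQD (MP_0c1440_lc): a definable set of squares which contains almost all squares

GOAL.  For every `A` there is a formula `φ(y)` in the language of the successor and coprimality such
that every `y` with `φ(y)` is a perfect square, and `φ(n ^ 2)` holds for all `n ≤ x` but
`O(x / (log x) ^ A)`.

THE FORMULA.  `L = LA A`, `K = 4 L ^ 4`, `φ(y)`: `y = u + K` with `u ≥ 1`, and for every `v ≥ 1` such that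
`u + j` and `v + j` have the same prime divisors for all `j ≤ K` the number `v + K` is a square.

WHY IT WORKS.  If `φ(n ^ 2)` fails then there is a nonsquare `z = b ^ 2 a`, `a > 1` squarefree, with
`supp (z - i ^ 2) = supp (n ^ 2 - i ^ 2)` for `i ^ 2 ≤ K`.  So `a ∣ n`, and for every prime `q > 2 L ^ 2`
which divides `n - i`: `b ^ 2 a = i ^ 2` modulo `q`, so `(a / q) = 1`.  This means: either there is a
nonsquare divisor `d` of `n`, `d ^ 2 ≤ n`, such that `(d / q) = 1` for all prime factors `q > 2 L ^ 2` of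
the numbers `n - k ^ 2`, `1 ≤ k ≤ L`, or `(2 / q) = 1` for all prime factors `q > 2 L ^ 2` of the numbers
`n - 2 k ^ 2` (`RedStmt`).  By the sieve of Brun this is rare: small `d` by the zeta function of
`ℚ(√d)`, large `d` by a second moment over `d`.

ALL ROWS ARE INDEPENDENT: a row may use the statements named in the column `uses` as hypotheses.
Useful files: `Pool/Agent/Common_Sieve/{Bonferroni,Count}.lean` (`bonferroni`, `esum_le`, `count_crt`,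
`mertens_prod`), `Pool/Agent/Common_Mertens/Mertens.lean` (`sum_log_div_le`, `sum_inv_le`).
`jacobiSym a b` is the Jacobi symbol `(a / b)`.
-/

set_option autoImplicit false

open Filter

open scoped BigOperators Topology

noncomputable section

namespace Pool.Agent.SQD

/-! ## Definitions -/

/-- `x + j` and `y + j` have the same prime divisors for `j ≤ J` -/
def Win (J x y : ℕ) : Prop := ∀ j : ℕ, j ≤ J → ∀ p : ℕ, p.Prime → (p ∣ x + j ↔ p ∣ y + j)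

/-- `(d / q) = 1` for all prime factors `q > 2 L ^ 2` of the numbers `n - c k ^ 2`, `1 ≤ k ≤ L` -/
def Spl (L c d n : ℕ) : Prop := ∀ k : ℕ, 1 ≤ k → k ≤ L → ∀ q : ℕ, q.Prime → 2 * L ^ 2 < q →
  (q : ℤ) ∣ (n : ℤ) - c * (k : ℤ) ^ 2 → jacobiSym d q = 1

/-- the primes in `(w, z]` -/
def PR (w z : ℕ) : Finset ℕ := (Finset.Ioc w z).filter Nat.Prime

/-- the primes `q` in `(w, z]` with `(d / q) = -1` -/
def NR (w z d : ℕ) : Finset ℕ := (PR w z).filter fun q => jacobiSym d q = -1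

/-- `∑ 1 / q` -/
def sR (S : Finset ℕ) : ℝ := ∑ q ∈ S, (1 : ℝ) / q

/-- `∑ (d / q) / q` over the primes in `(w, z]` -/
def TT (w z d : ℕ) : ℝ := ∑ q ∈ PR w z, (jacobiSym d q : ℝ) / q

/-- the character `(d / m)` for odd `m`, `0` for even `m` -/
def chi (d m : ℕ) : ℝ := if m % 2 = 0 then 0 else (jacobiSym d m : ℝ)

/-- the sifted numbers `m ≤ N`: no `q ∈ S` divides one of the `d m - c k ^ 2`, `1 ≤ k ≤ L` -/
def Sft (L c d N : ℕ) (S : Finset ℕ) : Set ℕ := {m : ℕ | 1 ≤ m ∧ m ≤ N ∧ ∀ q ∈ S, ∀ k : ℕ,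
  1 ≤ k → k ≤ L → ¬ (q : ℤ) ∣ (d : ℤ) * m - c * (k : ℤ) ^ 2}

/-- the number of shifts for the exponent `A` -/
def LA (A : ℕ) : ℕ := 64 * (A + 3)

/-- lower end of the primes for large `d` -/
def wq (A x : ℕ) : ℕ := ⌈(Real.log x) ^ (A + 3)⌉₊

/-- upper end of the primes for large `d` -/
def zq (x : ℕ) : ℕ := ⌊Real.exp ((Real.log x) ^ (1 / 16 : ℝ) / 8)⌋₊

/-! ## 1. Reduction -/

/-- RED.

Proof.  Let `K = 4 L ^ 4`, `z = y + K = b ^ 2 a`, `a` squarefree (`Nat.sq_mul_squarefree`), `a ≠ 1`.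
`j = K` in `Win`: `n ^ 2` and `z` have the same prime divisors, so every prime divisor of `a`
divides `n`, and `a ∣ n` (squarefree); `n = a t`.
(*) Let `0 < i ≤ 2 L ^ 2`, `i ^ 2 ≤ K`, `q > 2 L ^ 2` prime, `q ∣ n - i` (in `ℤ`).  Then `q ∣ n ^ 2 - i ^ 2 =
x + (K - i ^ 2)`, so `q ∣ y + (K - i ^ 2) = z - i ^ 2`, `b ^ 2 a ≡ i ^ 2` modulo `q`, `q ∤ i`; so
`(b / q) ^ 2 (a / q) = (i / q) ^ 2 = 1` and `(a / q) = 1` (`jacobiSym.mul_left`, `jacobiSym.mod_left`).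
(1) `a ^ 2 ≤ n`: `d = a`, (*) with `i = k ^ 2` (`a` is not a square: a squarefree square is 1).
(2) `n < a ^ 2`: then `t ^ 2 ≤ n` (`t ^ 2 a ^ 2 = n ^ 2`).  If `t` is not a square: `d = t`; for
`q ∣ n - k ^ 2`: `1 = (k ^ 2 / q) = (n / q) = (a / q)(t / q) = (t / q)`.  If `t = s ^ 2`: for
`q ∣ n - 2 k ^ 2` (*) with `i = 2 k ^ 2` (`i ^ 2 = 4 k ^ 4 ≤ K`): `(2 / q) = (2 k ^ 2 / q) = (n / q) =
(a / q)(s / q) ^ 2 = 1` (`q ∤ s` because `q ∤ 2 k ^ 2`). -/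
def RedStmt : Prop := ∀ L n x y : ℕ, 1 ≤ L → 1 ≤ n → 1 ≤ x → 1 ≤ y → n ^ 2 = x + 4 * L ^ 4 →
  Win (4 * L ^ 4) x y → ¬ IsSquare (y + 4 * L ^ 4) →
  (∃ d : ℕ, ¬ IsSquare d ∧ d ∣ n ∧ d * d ≤ n ∧ Spl L 1 d n) ∨ Spl L 2 2 n

/-! ## 2. The sieve -/

/-- SVE: the sieve of Brun, pure form.

Proof.  `P q m`: `∃ k, 1 ≤ k ≤ L ∧ q ∣ d m - c k ^ 2` (periodic in the integer `m`).  For `q ∈ S` exactly
`L` residues `r < q` satisfy `P q r`: `r ≡ c k ^ 2 / d`, and the `k ^ 2` are different modulo `q`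
(`q ∣ (k - l)(k + l)`, `k + l ≤ 2 L < q`); so `cnt P q = L`.  `bonferroni` with the indicator functions
`g q = 1_{P q m}`: `∏_{q ∈ S} (1 - 1_{P q m}) ≤ ∑_{D ⊆ S, #D ≤ r} (-1) ^ #D 1_{P q m for all q ∈ D}`.  Sum over
`m ∈ (0, N]`, `count_crt`: at most `N ∑_{#D ≤ r} (-1) ^ #D ∏_D L / q + ∑_{#D ≤ r} L ^ #D`.  By `bonferroni` with
`g q = L / q ≤ 1` and `esum_le` the first sum is at most `∏_S (1 - L / q) + (L sR S) ^ (r + 1) / (r + 1)!`,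
and `1 - u ≤ exp (- u)`.  The second sum is `∑_{j ≤ r} C(#S, j) L ^ j ≤ ∑_{j ≤ r} C(r, j) (L #S) ^ j =
(1 + L #S) ^ r`, `#S ≤ z`. -/
def SveStmt : Prop := ∀ (L c d N z r : ℕ) (S : Finset ℕ), 1 ≤ L → Even r →
  (∀ q ∈ S, q.Prime ∧ 2 * L ^ 2 < q ∧ q ≤ z ∧ ¬ q ∣ c ∧ ¬ q ∣ d) →
  ((Sft L c d N S).ncard : ℝ) ≤
    N * (Real.exp (-(L * sR S)) + (L * sR S) ^ (r + 1) / ((r + 1).factorial : ℝ)) +
      ((L : ℝ) * z + 1) ^ r

/-- MER: Mertens.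

Proof.  Upper bound: `Common_Mertens.sum_inv_le` (`PR 0 z = Nat.primesLE z`), `log (z + 1) ≤ 2 log z`.
Lower bound: `Common_Sieve.mertens_prod`: `∏_{p ≤ z} (1 - 1 / p) ≤ 1 / log z`, so
`log log z ≤ ∑_{p ≤ z} - log (1 - 1 / p) ≤ ∑ (1 / p + 1 / p ^ 2) ≤ sR (PR 0 z) + 1`; subtract the upper bound
for `sR (PR 0 w)`. -/
def MerStmt : Prop := ∃ C : ℝ, ∀ w z : ℕ, 2 ≤ w → w ≤ z →
  Real.log (Real.log z) - Real.log (Real.log w) - C ≤ sR (PR w z) ∧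
    sR (PR 0 z) ≤ Real.log (Real.log z) + C

/-- SIX: the sieve, asymptotic form.  Uses SVE, MER.

Proof.  Let `ℓ = log x`, `E = L sR S`.  If `z < 2` then `S = ∅`, so `B = 0` (for `log ℓ > 0`) and the claim is
trivial.  Otherwise `S ⊆ PR 0 z` and `E ≤ L (log log z + C) ≤ L (log ℓ + C)` (`log z ≤ √ℓ ≤ ℓ`).  Let `r` be
an even number with `R ≤ r ≤ R + 3`, `R = 8 L (log ℓ + |C|) + B log ℓ`.  Then `(r + 1)! ≥ ((r + 1) / e) ^ (r + 1)`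
and `r + 1 ≥ e ^ 2 E`, so `E ^ (r + 1) / (r + 1)! ≤ exp (- (r + 1)) ≤ ℓ ^ (- B)`; `exp (- E) ≤ ℓ ^ (- B)` by
hypothesis; `(L z + 1) ^ r ≤ exp ((R + 3) (log (2 L) + √ℓ))` (for `z ≥ 1`; `L z + 1 ≤ 2 L z`), and for large
`x` this is at most `√x / (2 ℓ ^ B) ≤ N / ℓ ^ B`. -/
def SixStmt : Prop := ∀ L B : ℕ, 1 ≤ L → ∃ x₀ : ℕ, ∀ (x N z c d : ℕ) (S : Finset ℕ), x₀ ≤ x →
  √(x : ℝ) ≤ 2 * N → (z : ℝ) ≤ Real.exp (√(Real.log x)) →
  (∀ q ∈ S, q.Prime ∧ 2 * L ^ 2 < q ∧ q ≤ z ∧ ¬ q ∣ c ∧ ¬ q ∣ d) →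
  B * Real.log (Real.log x) ≤ L * sR S →
    ((Sft L c d N S).ncard : ℝ) ≤ 3 * N / (Real.log x) ^ B

/-- DVC: the numbers `n = d m`.

Proof.  `n = d m`, `1 ≤ m ≤ x / d`; if `q ∈ S` divided `d m - c k ^ 2 = n - c k ^ 2` then `(e / q) = 1` by
`Spl`.  The map `m ↦ d m` is injective. -/
def DvcStmt : Prop := ∀ (L c d e x : ℕ) (S : Finset ℕ), 1 ≤ d →
  (∀ q ∈ S, q.Prime ∧ 2 * L ^ 2 < q ∧ jacobiSym e q = -1) →
    {n : ℕ | 1 ≤ n ∧ n ≤ x ∧ d ∣ n ∧ Spl L c e n}.ncard ≤ (Sft L c d (x / d) S).ncard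

/-! ## 3. The second moment -/

/-- CHR: the product of two Legendre symbols.

Proof.  `d ↦ (d / q)(d / q')` depends only on `d` modulo `q q'`, and its sum over a complete residue
system is `(∑_{a mod q} (a / q)) (∑_{b mod q'} (b / q')) = 0` (chinese remainder theorem,
`quadraticChar_sum_zero`).  So the sum over an interval is a sum of less than `q q'` terms of absolute
value at most 1. -/
def ChrStmt : Prop := ∀ q q' : ℕ, q.Prime → q'.Prime → 2 < q → 2 < q' → q ≠ q' → ∀ A B : ℕ,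
  |∑ d ∈ Finset.Ico A B, (jacobiSym d q * jacobiSym d q')| ≤ (q : ℤ) * q'

/-- SMT: the second moment.  Uses CHR.

Proof.  `#{..} ≤ ∑_{D ≤ d < 2 D} (TT w z d) ^ 2 = ∑_{q, q' ∈ PR w z} (1 / (q q')) ∑_d (d / q)(d / q')`.  The terms
with `q = q'` are at most `D ∑_{q > w} 1 / q ^ 2 ≤ D / w`, the others at most `1` each by CHR, and there are
at most `z ^ 2` of them. -/
def SmtStmt : Prop := ∀ D w z : ℕ, 2 ≤ w →
  ({d : ℕ | D ≤ d ∧ d < 2 * D ∧ 1 ≤ |TT w z d|}.ncard : ℝ) ≤ (D : ℝ) / w + (z : ℝ) ^ 2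

/-- LGD: a typical large `d`.  Uses MER.

Proof.  For `q ∈ PR w z` (odd) `(d / q) = 0` iff `q ∣ d`.  `sR (PR w z) - TT w z d = ∑ (1 - (d / q)) / q =
2 sR (NR w z d) + ∑_{q ∣ d} 1 / q`, and the last sum is at most `#(primeFactors d) / w ≤ (log d / log 2) / w
≤ 1 / log 2 ≤ 2`.  So `2 sR (NR w z d) ≥ log log z - log log w - C - 1 - 2`. -/
def LgdStmt : Prop := ∃ C : ℝ, ∀ d w z x : ℕ, 2 ≤ w → w ≤ z → 1 ≤ d → d ≤ x → Real.log x ≤ w →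
  |TT w z d| < 1 →
    (Real.log (Real.log z) - Real.log (Real.log w)) / 2 - C ≤ sR (NR w z d)

/-! ## 4. Small `d`: the zeta function of a quadratic field -/

/-- NSQ: the character is not trivial.

Proof.  Let `d = 2 ^ e d'`, `d'` odd.  (a) Some odd prime `p` has an odd exponent in `d`: let
`d' = p ^ f d''`, `p ∤ d''`, `u` a nonresidue modulo `p`, `m ≡ 1` modulo `8 d''` and `m ≡ u` modulo `p`
(chinese remainder theorem).  Then `m` is odd and coprime to `d`, `(2 / m) = 1` (`m ≡ 1` modulo `8`),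
`(d / m) = (d' / m) = (m / d') = (m / p) ^ f (m / d'') = -1` (`jacobiSym.quadratic_reciprocity_one_mod_four`).
(b) Otherwise `d'` is a square and `e` is odd: `m ≡ 5` modulo `8`, `m ≡ 1` modulo `d'`; `(2 / m) = -1`
and `(d' / m) = 1`. -/
def NsqStmt : Prop := ∀ d : ℕ, ¬ IsSquare d → ∃ m : ℕ, Nat.Coprime m (4 * d) ∧
  jacobiSym d m = -1

/-- JAC: the partial sums of the character.  Uses NSQ.

Proof.  `chi d` has the period `4 d` (`jacobiSym.mod_right` for odd `m`), it is multiplicative, and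
`chi d m = 0` if `m` is not coprime to `4 d`.  Let `m₀` be the number of NSQ: multiplication by `m₀`
permutes the residues modulo `4 d`, so the sum `s` over a period satisfies `s = - s`.  So a partial sum
is a sum of less than `4 d` terms of absolute value at most 1. -/
def JacStmt : Prop := ∀ d : ℕ, ¬ IsSquare d → ∀ M : ℕ, |∑ m ∈ Finset.range M, chi d m| ≤ 4 * d

/-- ABL: Abel summation.

Proof.  The series converges absolutely.  The terms with `m + 1 ≤ P` contribute at most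
`∑_{m ≤ P} 1 / m ≤ 1 + log P` (`harmonic_le_one_add_log`).  With `F M = ∑_{m < M} f m` the rest is
`∑_{m > P} (F (m + 1) - F m) m ^ (-s) = - F (P + 1) (P + 1) ^ (-s) + ∑_{m > P} F (m + 1) (m ^ (-s) -
(m + 1) ^ (-s))`, of absolute value at most `2 P (P + 1) ^ (-s) ≤ 2`. -/
def AblStmt : Prop := ∀ (f : ℕ → ℝ) (P : ℕ) (s : ℝ), 2 ≤ P → 1 < s → (∀ m, |f m| ≤ 1) →
  (∀ M : ℕ, |∑ m ∈ Finset.range M, f m| ≤ P) →
    |∑' m : ℕ, f (m + 1) / ((m : ℝ) + 1) ^ s| ≤ 3 + Real.log P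

/-- ZET.

Proof.  For `m ≥ 1`: `(m + 1) ^ (-s) ≤ (m ^ (1 - s) - (m + 1) ^ (1 - s)) / (s - 1)` (mean value theorem, or
integral comparison); telescoping. -/
def ZetStmt : Prop := ∀ s : ℝ, 1 < s → ∑' m : ℕ, 1 / ((m : ℝ) + 1) ^ s ≤ 1 + 1 / (s - 1)

/-- EUP: Euler products.

Proof.  `EulerProduct.eulerProduct_completely_multiplicative_hasProd` for the functions
`m ↦ m ^ (-s)` and `m ↦ f m m ^ (-s)` (as `ℕ →*₀ ℝ`; `0 ^ (-s)` must be read as `0`):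
`Z = ∑' (m + 1) ^ (-s) = ∏ (1 - q ^ (-s))⁻¹`, `W = ∑' f (m + 1) (m + 1) ^ (-s) = ∏ (1 - f q q ^ (-s))⁻¹`.
The factors of `Z W` are `((1 - q ^ (-s)) (1 - f q q ^ (-s)))⁻¹ ≥ 1` (they are `(1 - u) ^ (-2)`, `(1 - u)⁻¹` or
`(1 - u ^ 2)⁻¹`), so the product over `T` is at most `Z W`, and `0 < W`.  Finally
`- log (1 - u) ≥ u` for `u < 1`, so `∑_T (1 + f q) q ^ (-s) ≤ log (Z W)`. -/
def EupStmt : Prop := ∀ (f : ℕ → ℝ) (s : ℝ) (T : Finset ℕ), 1 < s → (∀ q ∈ T, q.Prime) →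
  f 0 = 0 → f 1 = 1 → (∀ m n, f (m * n) = f m * f n) → (∀ m, f m = 0 ∨ f m = 1 ∨ f m = -1) →
    0 < ∑' m : ℕ, f (m + 1) / ((m : ℝ) + 1) ^ s ∧
    ∑ q ∈ T, (1 + f q) / (q : ℝ) ^ s ≤ Real.log (∑' m : ℕ, 1 / ((m : ℝ) + 1) ^ s) +
      Real.log (∑' m : ℕ, f (m + 1) / ((m : ℝ) + 1) ^ s)

/-- SPT: the split primes.  Uses JAC, ABL, ZET, EUP.

Proof.  `f = chi d` (`jacobiSym.mul_right`; `chi d 0 = 0`, `chi d 1 = 1`), `T = PR 0 z`, `ε = 1 / log z`,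
`s = 1 + ε`, `P = 4 d`.  EUP, ZET, JAC, ABL: `∑_T (1 + chi d q) q ^ (-s) ≤ log (1 + log z) +
log (3 + log (4 d)) ≤ log log z + log log (4 d) + C`.  And `1 / q - q ^ (-s) ≤ ε log q / q`
(`exp (- v) ≥ 1 - v`), so the difference to the sum with `s = 1` is at most
`2 ε ∑_{q ≤ z} log q / q ≤ 2 ε (log z + log 4) ≤ 6` (`Common_Mertens.sum_log_div_le`). -/
def SptStmt : Prop := ∃ C : ℝ, ∀ d z : ℕ, ¬ IsSquare d → 2 ≤ z →
  ∑ q ∈ PR 0 z, (1 + chi d q) / (q : ℝ) ≤ Real.log (Real.log z) + Real.log (Real.log (4 * d)) + C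

/-- INE: the inert primes.  Uses SPT, MER.

Proof.  `∑_{PR 0 z} (1 - chi d q) / q = 2 sR (PR 0 z) - ∑ (1 + chi d q) / q ≥ log log z - log log (4 d) - C`
(MER for `w = 2`).  The `q` with `chi d q = 0` divide `2 d`, so they are at most `2 d` and contribute at
most `sR (PR 0 (2 d)) ≤ log log (4 d) + C`; the others contribute `2 / q` if `chi d q = -1` and `0`
otherwise.  So the `q ≤ z` with `chi d q = -1` (they are odd) have `∑ 1 / q ≥ (1/2) log log z -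
log log (4 d) - C`, and the ones in `(0, w]` contribute at most `log log w + C`. -/
def IneStmt : Prop := ∃ C : ℝ, ∀ d z w : ℕ, ¬ IsSquare d → 2 ≤ w → w ≤ z →
  Real.log (Real.log z) / 2 - Real.log (Real.log (4 * d)) - Real.log (Real.log w) - C ≤
    sR (NR w z d)

/-! ## 5. Counting -/

/-- CNS: small `d`.  Uses SIX, DVC, INE.

Proof.  `L = LA A`, `w = 2 L ^ 2`, `ℓ = log x`, `z = ⌊exp (√ℓ)⌋`, `D₁ = exp (ℓ ^ (1/16))`.  For a nonsquare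
`d ≤ D₁`, `d ^ 2 ≤ x`, `d ∣ n`: DVC with `c = 1`, `e = d`, `S = NR w z d` (`q ∤ d` as `(d / q) ≠ 0`),
`N = x / d ≥ √x - 1 ≥ √x / 2`.  By INE `sR S ≥ (1/2) log log z - log log (4 d) - C ≥ (1/4 - 1/16) log ℓ - C'
≥ (1/16) log ℓ` for large `x`, so `L sR S ≥ (A + 1) log ℓ` and by SIX (`B = A + 1`) at most
`3 (x / d) / ℓ ^ (A + 1)` such `n`.  Sum over `d ≤ D₁`: `∑ 1 / d ≤ 1 + ℓ ^ (1/16) ≤ 2 ℓ`. -/
def CnsStmt : Prop := ∀ A : ℕ, ∃ x₀ : ℕ, ∀ x : ℕ, x₀ ≤ x →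
  ({n : ℕ | 1 ≤ n ∧ n ≤ x ∧ ∃ d : ℕ, ¬ IsSquare d ∧ d ∣ n ∧ d * d ≤ x ∧
    (d : ℝ) ≤ Real.exp ((Real.log x) ^ (1 / 16 : ℝ)) ∧ Spl (LA A) 1 d n}.ncard : ℝ) ≤
      6 * x / (Real.log x) ^ A

/-- CNB: the second alternative of RED.  Uses SIX, DVC, INE.

Proof.  As CNS with `d = 1`, `c = 2`, `e = 2`, `S = NR w z 2`, `N = x`, `B = A`. -/
def CnbStmt : Prop := ∀ A : ℕ, ∃ x₀ : ℕ, ∀ x : ℕ, x₀ ≤ x →
  ({n : ℕ | 1 ≤ n ∧ n ≤ x ∧ Spl (LA A) 2 2 n}.ncard : ℝ) ≤ 3 * x / (Real.log x) ^ A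

/-- CNG: large typical `d`.  Uses SIX, DVC, LGD.

Proof.  `L = LA A`, `w = wq A x`, `z = zq x`, `ℓ = log x`.  For large `x`: `2 L ^ 2 < w ≤ z`, `ℓ ≤ w`,
`z ≤ exp (√ℓ)`, `log log z ≥ (1/16) log ℓ - log 16`, `log log w ≤ log ((A + 4) log ℓ)`.  By LGD
`sR (NR w z d) ≥ (1/32) log ℓ - (1/2) log ((A + 4) log ℓ) - C' ≥ (1/64) log ℓ`, so
`L sR S ≥ (A + 3) log ℓ ≥ (A + 2) log ℓ`.  DVC (`c = 1`, `e = d`), SIX with `B = A + 2`, `N = x / d`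
(`2 N ≥ √x`): at most `3 (x / d) / ℓ ^ (A + 2)` for each `d`; sum over `d ≤ √x`: `∑ 1 / d ≤ 1 + ℓ ≤ 2 ℓ`. -/
def CngStmt : Prop := ∀ A : ℕ, ∃ x₀ : ℕ, ∀ x : ℕ, x₀ ≤ x →
  ({n : ℕ | 1 ≤ n ∧ n ≤ x ∧ ∃ d : ℕ, 1 ≤ d ∧ d ∣ n ∧ d * d ≤ x ∧
    |TT (wq A x) (zq x) d| < 1 ∧ Spl (LA A) 1 d n}.ncard : ℝ) ≤ 6 * x / (Real.log x) ^ A

/-- CNX: large exceptional `d`.  Uses SMT.

Proof.  `D₁ = exp (ℓ ^ (1/16))`, `ℓ = log x`, `w = wq A x ≥ ℓ ^ (A + 3)`, `z = zq x`, `z ^ 2 ≤ D₁ ^ (1/4)`.  Let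
`2 ^ j ≤ d < 2 ^ (j + 1)`, so `D₁ / 2 < 2 ^ j ≤ x`.  By SMT at most `2 ^ j / w + z ^ 2` such `d` are
exceptional, and each of them divides at most `x / d ≤ x / 2 ^ j` of the `n`.  Together at most
`x (1 / w + z ^ 2 / 2 ^ j) ≤ x (1 / w + 2 D₁ ^ (-3/4)) ≤ 2 x / ℓ ^ (A + 3)` for large `x`.  There are at most
`log x / log 2 + 1 ≤ 3 ℓ` values of `j`. -/
def CnxStmt : Prop := ∀ A : ℕ, ∃ x₀ : ℕ, ∀ x : ℕ, x₀ ≤ x →
  ({n : ℕ | 1 ≤ n ∧ n ≤ x ∧ ∃ d : ℕ, d ∣ n ∧ d * d ≤ x ∧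
    Real.exp ((Real.log x) ^ (1 / 16 : ℝ)) < d ∧
    1 ≤ |TT (wq A x) (zq x) d|}.ncard : ℝ) ≤ 6 * x / (Real.log x) ^ A

/-- CNT: the count.  Uses CNS, CNB, CNG, CNX.

Proof.  Union of the four sets: a nonsquare `d ≥ 1`, `d * d ≤ n ≤ x`, is small, or large and typical, or
large and exceptional.  Constant `21`; for the `x < x₀`, `x ≥ 2`, the number is at most
`x ≤ x (log x₀) ^ A / (log x) ^ A`. -/
def CntStmt : Prop := ∀ A : ℕ, ∃ C : ℝ, ∀ x : ℕ, 2 ≤ x →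
  ({n : ℕ | 1 ≤ n ∧ n ≤ x ∧ ((∃ d : ℕ, ¬ IsSquare d ∧ d ∣ n ∧ d * d ≤ n ∧ Spl (LA A) 1 d n) ∨
    Spl (LA A) 2 2 n)}.ncard : ℝ) ≤ C * x / (Real.log x) ^ A

end Pool.Agent.SQD
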